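import Mathlib

set_option autoImplicit false

/-!
Sorting cyclic permutations by arbitrary transpositions: if `n ≥ 4` is divisible by `2` or by `3`,
then `t(n) ≤ n - 3`.

Suppose that all permutations of the coset `π C_n` have at most two cycles. Each of them has at
most one fixed point, and the coset has `n` fixed points in total, so each has exactly one fixed
point and a cycle of length `n - 1 ≥ 3`. Hence `x ↦ π⁻¹(x) - x` is a bijection of the residues
modulo `n` (one fixed point each), and `x ↦ π⁻¹(x) + x` is a bijection as well (no cycle of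
length two). The sum of the values of the first map shows that `n` is odd, and the sums of the
squares of the values of both maps show that `n` is not divisible by `3`.
-/

namespace Pool.Agent.Results.MP_02ec02_co.DivisibleByTwoOrThree

open Equiv Finset

/-- The number of cycles of a permutation, fixed points included. -/
def cyc {n : ℕ} (σ : Perm (Fin n)) : ℕ := Multiset.card σ.partition.parts

/-- The sorting time of the class of `π`: the least value of `n - cyc σ` for `σ` in the left
coset `π C_n`, where `C_n` is generated by the rotation `c : x ↦ x + 1`. -/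
noncomputable def sortingTime {n : ℕ} (π : Perm (Fin n)) : ℕ :=
  sInf {k : ℕ | ∃ i : ℕ, k = n - cyc (π * finRotate n ^ i)}

/-- The largest sorting time of a cyclic permutation of order `n`. -/
noncomputable def t (n : ℕ) : ℕ :=
  Finset.univ.sup (fun π : Perm (Fin n) => sortingTime π)

theorem cyc_eq {n : ℕ} (σ : Perm (Fin n)) :
    cyc σ = Multiset.card σ.cycleType + (n - σ.support.card) := by
  simp [cyc, Equiv.Perm.parts_partition]

theorem fix_unique {n : ℕ} (hn : 4 ≤ n) (σ : Perm (Fin n)) (h : cyc σ ≤ 2) (x y : Fin n)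
    (hx : σ x = x) (hy : σ y = y) : x = y := by
  by_contra hne
  rw [cyc_eq] at h
  have h1 : σ.support.card ≤ n - 2 := by
    have hsub : σ.support ⊆ (Finset.univ.erase x).erase y := by
      intro z hz
      rw [Equiv.Perm.mem_support] at hz
      simp only [Finset.mem_erase, Finset.mem_univ, and_true]
      exact ⟨fun e => hz (e ▸ hy), fun e => hz (e ▸ hx)⟩
    have h2 := Finset.card_le_card hsub
    rw [Finset.card_erase_of_mem, Finset.card_erase_of_mem (Finset.mem_univ x)] at h2
    · simp only [Finset.card_univ, Fintype.card_fin] at h2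
      omega
    · simp only [Finset.mem_erase, Finset.mem_univ, and_true]
      exact fun e => hne e.symm
  by_cases h1' : σ = 1
  · subst h1'
    simp at h
    omega
  · have h3 : 0 < Multiset.card σ.cycleType := by
      rw [Equiv.Perm.card_cycleType_pos]
      exact h1'
    omega

theorem no_two {n : ℕ} (hn : 4 ≤ n) (σ : Perm (Fin n)) (h : cyc σ ≤ 2) (z x : Fin n)
    (hz : σ z = z) (hx : σ x ≠ x) : σ (σ x) ≠ x := by
  intro hxx
  rw [cyc_eq] at h
  have h1 : σ.support.card ≤ n - 1 := by
    have hsub : σ.support ⊆ Finset.univ.erase z := by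
      intro w hw
      rw [Equiv.Perm.mem_support] at hw
      simp only [Finset.mem_erase, Finset.mem_univ, and_true]
      exact fun e => hw (e ▸ hz)
    have h2 := Finset.card_le_card hsub
    rw [Finset.card_erase_of_mem (Finset.mem_univ z)] at h2
    simpa using h2
  have hne : σ ≠ 1 := by
    intro e
    exact hx (by rw [e]; rfl)
  have h3 : 0 < Multiset.card σ.cycleType := by
    rw [Equiv.Perm.card_cycleType_pos]
    exact hne
  have h4 : Multiset.card σ.cycleType = 1 := by omega
  have hc : σ.IsCycle := Equiv.Perm.card_cycleType_eq_one.1 h4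
  have h5 : σ ^ 2 = 1 := by
    rw [hc.pow_eq_one_iff]
    exact ⟨x, hx, by rw [pow_two]; exact hxx⟩
  have h6 : orderOf σ ∣ 2 := orderOf_dvd_of_pow_eq_one h5
  have h7 := Nat.le_of_dvd (by norm_num) h6
  rw [hc.orderOf] at h7
  omega

/-- The rotation, on the residues modulo `m + 1`. -/
def rot (m : ℕ) : Perm (ZMod (m + 1)) := finRotate (m + 1)

theorem rot_apply (m : ℕ) (x : ZMod (m + 1)) : rot m x = x + 1 :=
  finRotate_apply (n := m + 1) x

theorem rot_pow (m i : ℕ) (x : ZMod (m + 1)) : (rot m ^ i) x = x + (i : ZMod (m + 1)) := by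
  induction i with
  | zero => rw [pow_zero, Nat.cast_zero, add_zero]; rfl
  | succ i ih =>
    rw [pow_succ', Equiv.Perm.mul_apply, ih, rot_apply, Nat.cast_succ, ← add_assoc]

theorem sum_sq (n : ℕ) : 6 * ∑ i ∈ range (n + 1), i ^ 2 = n * (n + 1) * (2 * n + 1) := by
  induction n with
  | zero => simp
  | succ n ih =>
    rw [Finset.sum_range_succ, mul_add, ih]
    ring

theorem key (m : ℕ) (q : Perm (ZMod (m + 1)))
    (h1 : Function.Injective fun x => q x - x) (h2 : Function.Injective fun x => q x + x) :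
    ¬ 2 ∣ m + 1 ∧ ¬ 3 ∣ m + 1 := by
  have b1 := Finite.injective_iff_bijective.1 h1
  have b2 := Finite.injective_iff_bijective.1 h2
  have e0 : ∑ x : ZMod (m + 1), q x = ∑ x : ZMod (m + 1), x := Equiv.sum_comp q (fun x => x)
  have e0' : ∑ x : ZMod (m + 1), (q x) ^ 2 = ∑ x : ZMod (m + 1), x ^ 2 :=
    Equiv.sum_comp q (fun x => x ^ 2)
  have e1 : ∑ x : ZMod (m + 1), (q x - x) = ∑ x : ZMod (m + 1), x :=
    b1.sum_comp (fun x => x)
  have e2 : ∑ x : ZMod (m + 1), (q x - x) ^ 2 = ∑ x : ZMod (m + 1), x ^ 2 :=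
    b1.sum_comp (fun x => x ^ 2)
  have e3 : ∑ x : ZMod (m + 1), (q x + x) ^ 2 = ∑ x : ZMod (m + 1), x ^ 2 :=
    b2.sum_comp (fun x => x ^ 2)
  have s1 : ∑ x : ZMod (m + 1), x = 0 := by
    rw [← e1, Finset.sum_sub_distrib, e0, sub_self]
  have s2 : 2 * ∑ x : ZMod (m + 1), x ^ 2 = 0 := by
    have e4 : ∑ x : ZMod (m + 1), (q x - x) ^ 2 + ∑ x : ZMod (m + 1), (q x + x) ^ 2 =
        2 * ∑ x : ZMod (m + 1), (q x) ^ 2 + 2 * ∑ x : ZMod (m + 1), x ^ 2 := by
      rw [← Finset.sum_add_distrib, Finset.mul_sum, Finset.mul_sum, ← Finset.sum_add_distrib]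
      refine Finset.sum_congr rfl fun x _ => ?_
      ring
    rw [e2, e3, e0'] at e4
    linear_combination -e4
  have c1 : ∑ x : ZMod (m + 1), x = ((∑ i ∈ range (m + 1), i : ℕ) : ZMod (m + 1)) := by
    rw [Nat.cast_sum, ← Fin.sum_univ_eq_sum_range (fun i => (i : ZMod (m + 1))) (m + 1)]
    exact Finset.sum_congr rfl fun x _ => (ZMod.natCast_zmod_val (n := m + 1) x).symm
  have c2 : ∑ x : ZMod (m + 1), x ^ 2 = ((∑ i ∈ range (m + 1), i ^ 2 : ℕ) : ZMod (m + 1)) := by
    rw [Nat.cast_sum, ← Fin.sum_univ_eq_sum_range (fun i => ((i ^ 2 : ℕ) : ZMod (m + 1))) (m + 1)]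
    refine Finset.sum_congr rfl fun x _ => ?_
    rw [Nat.cast_pow]
    exact congrArg (· ^ 2) (ZMod.natCast_zmod_val (n := m + 1) x).symm
  constructor
  · rintro ⟨k, hk⟩
    rw [c1, ZMod.natCast_eq_zero_iff] at s1
    have hs := Finset.sum_range_id_mul_two (m + 1)
    obtain ⟨c, hc⟩ := s1
    rw [hc, hk] at hs
    have hk0 : 0 < 2 * k := by omega
    have h3 : 2 * k * (c * 2) = 2 * k * (2 * k - 1) := by rw [← hs]; ring
    have h4 := Nat.eq_of_mul_eq_mul_left hk0 h3
    omega
  · rintro ⟨k, hk⟩
    rw [c2] at s2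
    have s2' : ((2 * ∑ i ∈ range (m + 1), i ^ 2 : ℕ) : ZMod (m + 1)) = 0 := by
      push_cast
      push_cast at s2
      exact s2
    rw [ZMod.natCast_eq_zero_iff] at s2'
    have hs := sum_sq m
    obtain ⟨c, hc⟩ := s2'
    obtain ⟨l, rfl⟩ : ∃ l, k = l + 1 := ⟨k - 1, by omega⟩
    have hm : m = 3 * l + 2 := by omega
    have h3 : (m + 1) * (3 * c) = (m + 1) * (m * (2 * m + 1)) := by
      calc (m + 1) * (3 * c) = 3 * ((m + 1) * c) := by ring
        _ = 3 * (2 * ∑ i ∈ range (m + 1), i ^ 2) := by rw [hc]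
        _ = 6 * ∑ i ∈ range (m + 1), i ^ 2 := by ring
        _ = (m + 1) * (m * (2 * m + 1)) := by rw [hs]; ring
    have h4 := Nat.eq_of_mul_eq_mul_left (Nat.succ_pos m) h3
    rw [hm] at h4
    have h5 : (3 * l + 2) * (2 * (3 * l + 2) + 1) = 3 * (6 * l ^ 2 + 9 * l + 3) + 1 := by ring
    omega

/-- If `n ≥ 4` is divisible by `2` or by `3`, then every cyclic permutation of order `n` can be
sorted by at most `n - 3` transpositions. -/
theorem result (n : ℕ) (hn : 4 ≤ n) (h : 2 ∣ n ∨ 3 ∣ n) : t n ≤ n - 3 := by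
  refine Finset.sup_le fun π _ => ?_
  by_contra hlt
  push Not at hlt
  have hc : ∀ i : ℕ, cyc (π * finRotate n ^ i) ≤ 2 := by
    intro i
    have h1 : sortingTime π ≤ n - cyc (π * finRotate n ^ i) := Nat.sInf_le ⟨i, rfl⟩
    omega
  obtain ⟨m, rfl⟩ : ∃ m, n = m + 1 := ⟨n - 1, by omega⟩
  let p : Perm (ZMod (m + 1)) := π
  let q : Perm (ZMod (m + 1)) := p.symm
  have happ : ∀ (i x : ZMod (m + 1)), (π * finRotate (m + 1) ^ i.val) x = p (x + i) := by
    intro i x
    change p ((rot m ^ i.val) x) = _
    rw [rot_pow, ZMod.natCast_zmod_val]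
  have hpq : ∀ x, p (q x) = x := fun x => p.apply_symm_apply x
  have hfix : ∀ x : ZMod (m + 1), p (x + (q x - x)) = x := by
    intro x
    rw [add_sub_cancel]
    exact hpq x
  have inj1 : Function.Injective fun x : ZMod (m + 1) => q x - x := by
    intro x y hxy
    have hxy' : q x - x = q y - y := hxy
    refine fix_unique hn _ (hc (q x - x).val) x y ?_ ?_
    · rw [happ]
      exact hfix x
    · rw [happ, hxy']
      exact hfix y
  have bij1 := Finite.injective_iff_bijective.1 inj1
  have inj2 : Function.Injective fun x : ZMod (m + 1) => q x + x := by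
    intro x y hxy
    have hxy' : q x + x = q y + y := hxy
    by_contra hne
    obtain ⟨z, hz⟩ := bij1.surjective (q x - y)
    have hz' : q z - z = q x - y := hz
    have e1 : p (y + (q x - y)) = x := by
      rw [add_sub_cancel]
      exact hpq x
    have e2 : p (x + (q x - y)) = y := by
      have e3 : x + (q x - y) = q y := by linear_combination hxy'
      rw [e3]
      exact hpq y
    have hz1 : (π * finRotate (m + 1) ^ (q x - y).val) z = z := by
      rw [happ, ← hz']
      exact hfix z
    have hy1 : (π * finRotate (m + 1) ^ (q x - y).val) y = x := by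
      rw [happ]
      exact e1
    have hx1 : (π * finRotate (m + 1) ^ (q x - y).val) x = y := by
      rw [happ]
      exact e2
    refine no_two hn _ (hc (q x - y).val) z x hz1 ?_ ?_
    · rw [hx1]
      exact fun e => hne e.symm
    · rw [hx1]
      exact hy1
  obtain ⟨k2, k3⟩ := key m q inj1 inj2
  rcases h with h | h
  · exact k2 h
  · exact k3 h

end Pool.Agent.Results.MP_02ec02_co.DivisibleByTwoOrThree
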